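import Pool.Agent.Lib.HQE.Base

/-!
# Hofstadter's recursion: a descent at every scale

No solution of `f n = f (n - f (n - 1)) + f (n - f (n - 2))`, whatever its initial values, is
eventually nondecreasing; a nondecreasing stretch which begins at `x` ends before `120 x + 2000`.

Proof. Put `d n = f n - f (n - 1)` and `m n = n - f (n - 1)`, so that `m (n + 1) = m n + 1 - d n`
and `d (n + 1) = (f (m + 1 - d n) - f m) + (f (m + 1) - f (m + d (n - 1)))` with `m = m n`. On a
nondecreasing stretch two rises are followed by a flat step; a pair of rises after a flat step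
begins with `1`; then there is no rise after two flat steps, no two flat steps, no rise between
two flat steps, so the steps are `0, 1, 1, 0, 1, 1, ...`, and the positions read by such a stretch
would have three rises in a row.
-/

set_option autoImplicit false

namespace Pool.Agent.Results.MP_1ea5af_nt.Descents

open Pool.Agent.Lib.HQE

/-- Let `f` follow Hofstadter's recursion up to `N` from any positive initial values
`f 1, ..., f s` with `f k ≤ k + c`. For every `x ≥ max s c` with `120 x + 2000 ≤ N` there is a
descent `f (n + 1) < f n` with `x ≤ n < 120 x + 2000`. -/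
theorem result (s N : ℕ) (f : ℕ → ℕ) (h : Follows s N f) (c : ℕ)
    (hc : ∀ k, 1 ≤ k → k ≤ s → f k ≤ k + c) (x : ℕ) (hx : s ≤ x) (hcx : c ≤ x)
    (hN : 120 * x + 2000 ≤ N) :
    ∃ n, x ≤ n ∧ n < 120 * x + 2000 ∧ f (n + 1) < f n :=
  h.descent c hc x hx hcx hN

end Pool.Agent.Results.MP_1ea5af_nt.Descents
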