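import Pool.Agent.Lib.HQE.Base

/-!
# Hofstadter's recursion: large values at every scale

If all values on a stretch are at most `M`, then the least value at least doubles every `M` steps,
since both parents of `n` lie at distance at most `M` behind `n`.
-/

set_option autoImplicit false

namespace Pool.Agent.Results.MP_1ea5af_nt.EveryScale

open Pool.Agent.Lib.HQE

/-- Let `f` follow Hofstadter's recursion up to `N` from any positive initial values
`f 1, ..., f s`. Every window of length `M log₂ M + 3` beyond `s` contains a value above `M`. -/
theorem result (s N : ℕ) (f : ℕ → ℕ) (h : Follows s N f) (x M : ℕ) (hx : s ≤ x) (hM : 1 ≤ M)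
    (hN : x + M * Nat.log 2 M + 3 ≤ N) :
    ∃ n, x < n ∧ n ≤ x + M * Nat.log 2 M + 3 ∧ M < f n :=
  h.large x M hx hM hN

end Pool.Agent.Results.MP_1ea5af_nt.EveryScale
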