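import Mathlib

/-!
# Hofstadter's Q-recursion: the ratio `f(n)/n` cannot stay on one side of `1/2`

As long as the recursion survives, the ratio `f(n)/n` is at most `1/2 + ε` somewhere in every
window `(x, K x]` and at least `1/2 - ε` somewhere in every window `(x, x^K]`, where `K` depends
on `ε` only.
-/

namespace Pool.Agent.Results.MP_1ea5af_nt.HalfBounds

/-- `f(1), …, f(N)` are produced by Hofstadter's Q-recursion (which survives up to `N`). -/
def DefinedUpTo (N : ℕ) (f : ℕ → ℕ) : Prop :=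
  f 1 = 1 ∧ f 2 = 1 ∧ ∀ n : ℕ, 2 < n → n ≤ N →
    f (n - 1) < n ∧ f (n - 2) < n ∧ f n = f (n - f (n - 1)) + f (n - f (n - 2))

variable {N : ℕ} {f : ℕ → ℕ}

theorem DefinedUpTo.pos (h : DefinedUpTo N f) : ∀ n, 1 ≤ n → n ≤ N → 1 ≤ f n := by
  intro n
  induction n using Nat.strong_induction_on with
  | _ n ih =>
    intro h1 hN
    rcases Nat.lt_or_ge 2 n with h2 | h2
    · obtain ⟨ha, hb, hc⟩ := h.2.2 n h2 hN
      have p1 := ih (n - 1) (by omega) (by omega) (by omega)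
      have := ih (n - f (n - 1)) (by omega) (by omega) (by omega)
      omega
    · interval_cases n
      · rw [h.1]
      · rw [h.2.1]

theorem DefinedUpTo.le (h : DefinedUpTo N f) : ∀ n, 1 ≤ n → n < N → f n ≤ n := by
  intro n h1 hN
  rcases Nat.lt_or_ge 1 n with h2 | h2
  · have := (h.2.2 (n + 1) (by omega) (by omega)).1
    simp at this
    omega
  · interval_cases n
    rw [h.1]

/-- the recursion with the two arguments made explicit -/
theorem DefinedUpTo.rec' (h : DefinedUpTo N f) {n : ℕ} (h2 : 2 < n) (hN : n ≤ N) :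
    ∃ a b : ℕ, f n = f a + f b ∧ a + f (n - 1) = n ∧ b + f (n - 2) = n ∧
      1 ≤ a ∧ a < n ∧ 1 ≤ b ∧ b < n := by
  obtain ⟨ha, hb, hc⟩ := h.2.2 n h2 hN
  have p1 := h.pos (n - 1) (by omega) (by omega)
  have p2 := h.pos (n - 2) (by omega) (by omega)
  exact ⟨n - f (n - 1), n - f (n - 2), hc, by omega, by omega, by omega, by omega, by omega,
    by omega⟩

/-- upper bound propagation -/
theorem upper (h : DefinedUpTo N f) {ε : ℝ} (hε : 0 < ε) (hε2 : ε < 1 / 2) {x y : ℕ}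
    (hyN : y < N) (hx : 3 / ε ≤ x) (hbig : ∀ n, x < n → n ≤ y → (1 / 2 + ε) * n < f n) (j : ℕ) :
    ∀ n : ℕ, (2 * x) / ε ^ j < (n : ℝ) → n ≤ y → (f n : ℝ) ≤ (1 - ε) ^ (j + 1) * n := by
  have hx6 : (6 : ℝ) < x := by
    have : (6 : ℝ) < 3 / ε := by
      rw [lt_div_iff₀ hε]; linarith
    linarith
  have hx6' : 6 < x := by exact_mod_cast hx6
  have hεx : 3 ≤ ε * x := by
    rw [div_le_iff₀ hε] at hx; linarith
  -- the arguments of a large index
  have key : ∀ n : ℕ, 2 * x < n → n ≤ y → ∃ a b : ℕ, f n = f a + f b ∧ 1 ≤ a ∧ 1 ≤ b ∧ a < n ∧ b < n ∧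
      a + f (n - 1) = n ∧ b + f (n - 2) = n ∧
      ((a : ℝ) + b) ≤ (1 - ε) * n := by
    intro n h2x hny
    obtain ⟨a, b, h1, h2, h3, h4, h5, h6, h7⟩ := h.rec' (n := n) (by omega) (by omega)
    refine ⟨a, b, h1, h4, h6, h5, h7, h2, h3, ?_⟩
    have g1 := hbig (n - 1) (by omega) (by omega)
    have g2 := hbig (n - 2) (by omega) (by omega)
    have e1 : ((n - 1 : ℕ) : ℝ) = n - 1 := by
      rw [Nat.cast_sub (by omega)]; simp
    have e2 : ((n - 2 : ℕ) : ℝ) = n - 2 := by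
      rw [Nat.cast_sub (by omega)]; simp
    rw [e1] at g1
    rw [e2] at g2
    have k2 : (a : ℝ) + f (n - 1) = n := by exact_mod_cast h2
    have k3 : (b : ℝ) + f (n - 2) = n := by exact_mod_cast h3
    have hn : (2 : ℝ) * x < n := by exact_mod_cast h2x
    nlinarith
  induction j with
  | zero =>
    intro n hn hny
    have hn' : 2 * x < n := by
      rw [pow_zero, div_one] at hn; exact_mod_cast hn
    obtain ⟨a, b, h1, h4, h6, h5, h7, _, _, h8⟩ := key n hn' hny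
    have ga : (f a : ℝ) ≤ a := by exact_mod_cast h.le a h4 (by omega)
    have gb : (f b : ℝ) ≤ b := by exact_mod_cast h.le b h6 (by omega)
    rw [h1]
    push_cast
    simp only [pow_one]
    linarith
  | succ j ih =>
    intro n hn hny
    have hεj : 0 < ε ^ j := pow_pos hε j
    have hεj1 : ε ^ (j + 1) ≤ 1 := pow_le_one₀ hε.le (by linarith)
    have hxpos : (0 : ℝ) < 2 * x := by linarith
    have hn2 : 2 * (x : ℝ) / ε ^ (j + 1) ≥ 2 * x := by
      rw [ge_iff_le, le_div_iff₀ (pow_pos hε _)]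
      nlinarith
    have hn' : 2 * x < n := by
      have : (2 : ℝ) * x < n := by linarith
      exact_mod_cast this
    have hnε : 2 * (x : ℝ) / ε ^ j < ε * n := by
      rw [div_lt_iff₀ hεj]
      rw [div_lt_iff₀ (pow_pos hε _), pow_succ] at hn
      linarith
    have hn1 : 2 * (x : ℝ) / ε ^ j < ((n - 1 : ℕ) : ℝ) ∧ 2 * (x : ℝ) / ε ^ j < ((n - 2 : ℕ) : ℝ) := by
      have e1 : ((n - 1 : ℕ) : ℝ) = n - 1 := by
        rw [Nat.cast_sub (by omega)]; simp
      have e2 : ((n - 2 : ℕ) : ℝ) = n - 2 := by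
        rw [Nat.cast_sub (by omega)]; simp
      rw [e1, e2]
      have h12 : (12 : ℝ) < n := by
        have : (2 : ℝ) * x < n := by exact_mod_cast hn'
        linarith
      have hεn : ε * n ≤ 1 / 2 * n := by
        apply mul_le_mul_of_nonneg_right hε2.le
        linarith
      constructor <;> linarith
    obtain ⟨a, b, h1, h4, h6, h5, h7, h2, h3, h8⟩ := key n hn' hny
    have i1 := ih (n - 1) hn1.1 (by omega)
    have i2 := ih (n - 2) hn1.2 (by omega)
    have hpow : (1 - ε) ^ (j + 1) ≤ 1 - ε := by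
      rw [pow_succ]
      have : (1 - ε) ^ j ≤ 1 := pow_le_one₀ (by linarith) (by linarith)
      nlinarith
    have hpow0 : 0 ≤ (1 - ε) ^ (j + 1) := pow_nonneg (by linarith) _
    have k2 : (a : ℝ) + f (n - 1) = n := by exact_mod_cast h2
    have k3 : (b : ℝ) + f (n - 2) = n := by exact_mod_cast h3
    have c1 : ((n - 1 : ℕ) : ℝ) ≤ n := by exact_mod_cast Nat.sub_le n 1
    have c2 : ((n - 2 : ℕ) : ℝ) ≤ n := by exact_mod_cast Nat.sub_le n 2
    have c10 : (0 : ℝ) ≤ ((n - 1 : ℕ) : ℝ) := Nat.cast_nonneg _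
    have c20 : (0 : ℝ) ≤ ((n - 2 : ℕ) : ℝ) := Nat.cast_nonneg _
    have f1 : (f (n - 1) : ℝ) ≤ (1 - ε) * n := by
      calc (f (n - 1) : ℝ) ≤ (1 - ε) ^ (j + 1) * ((n - 1 : ℕ) : ℝ) := i1
        _ ≤ (1 - ε) * n := mul_le_mul hpow c1 c10 (by linarith)
    have f2 : (f (n - 2) : ℝ) ≤ (1 - ε) * n := by
      calc (f (n - 2) : ℝ) ≤ (1 - ε) ^ (j + 1) * ((n - 2 : ℕ) : ℝ) := i2
        _ ≤ (1 - ε) * n := mul_le_mul hpow c2 c20 (by linarith)
    have ha : 2 * (x : ℝ) / ε ^ j < a := by linarith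
    have hb : 2 * (x : ℝ) / ε ^ j < b := by linarith
    have ja := ih a ha (by omega)
    have jb := ih b hb (by omega)
    rw [h1]
    push_cast
    calc (f a : ℝ) + f b ≤ (1 - ε) ^ (j + 1) * (a + b) := by linarith
      _ ≤ (1 - ε) ^ (j + 1) * ((1 - ε) * n) := by gcongr
      _ = (1 - ε) ^ (j + 1 + 1) * n := by ring

/-- lower bound propagation -/
theorem lower (h : DefinedUpTo N f) {ε : ℝ} (hε : 0 < ε) {x y : ℕ} (hx : 2 ≤ x)
    (hyN : y ≤ N) (hsmall : ∀ n, x < n → n ≤ y → (f n : ℝ) < (1 / 2 - ε) * n) (j : ℕ) :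
    ∀ n : ℕ, 2 ^ j * (x + 2) ≤ n + 1 → n ≤ y →
      (1 + 2 * ε) ^ j * n ≤ (2 * x + 2) * (f n : ℝ) := by
  have key : ∀ n : ℕ, 2 * x + 2 < n → n ≤ y → ∃ a b : ℕ, f n = f a + f b ∧ 1 ≤ a ∧ 1 ≤ b ∧ a < n ∧ b < n ∧
      n < 2 * a ∧ n < 2 * b ∧
      (1 + 2 * ε) * n ≤ ((a : ℝ) + b) := by
    intro n h2x hny
    obtain ⟨a, b, h1, h2, h3, h4, h5, h6, h7⟩ := h.rec' (n := n) (by omega) (by omega)
    have g1 := hsmall (n - 1) (by omega) (by omega)
    have g2 := hsmall (n - 2) (by omega) (by omega)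
    have hp1 : (1 : ℝ) ≤ f (n - 1) := by exact_mod_cast h.pos (n - 1) (by omega) (by omega)
    have hε2 : ε < 1 / 2 := by
      by_contra hcon
      push Not at hcon
      have h0 : (0 : ℝ) ≤ ((n - 1 : ℕ) : ℝ) := Nat.cast_nonneg _
      have : (1 / 2 - ε) * ((n - 1 : ℕ) : ℝ) ≤ 0 := mul_nonpos_of_nonpos_of_nonneg (by linarith) h0
      linarith
    have e1 : ((n - 1 : ℕ) : ℝ) = n - 1 := by
      rw [Nat.cast_sub (by omega)]; simp
    have e2 : ((n - 2 : ℕ) : ℝ) = n - 2 := by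
      rw [Nat.cast_sub (by omega)]; simp
    rw [e1] at g1
    rw [e2] at g2
    have k2 : (a : ℝ) + f (n - 1) = n := by exact_mod_cast h2
    have k3 : (b : ℝ) + f (n - 2) = n := by exact_mod_cast h3
    have hnpos : (0 : ℝ) < n := by
      have : 0 < n := by omega
      exact_mod_cast this
    have hεn : 0 < ε * n := mul_pos hε hnpos
    have c1 : (n : ℝ) < 2 * a := by linarith
    have c2 : (n : ℝ) < 2 * b := by linarith
    exact ⟨a, b, h1, h4, h6, h5, h7, by exact_mod_cast c1, by exact_mod_cast c2, by linarith⟩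
  induction j with
  | zero =>
    intro n
    induction n using Nat.strong_induction_on with
    | _ n ihn =>
      intro hxn hny
      rw [pow_zero, one_mul] at hxn
      rw [pow_zero, one_mul]
      rcases Nat.lt_or_ge (2 * x + 2) n with h2 | h2
      · obtain ⟨a, b, h1, h4, h6, h5, h7, h8, h9, h10⟩ := key n h2 hny
        have i1 := ihn a h5 (by rw [pow_zero, one_mul]; omega) (by omega)
        have i2 := ihn b h7 (by rw [pow_zero, one_mul]; omega) (by omega)
        rw [pow_zero, one_mul] at i1 i2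
        rw [h1]
        push_cast
        have hnpos : (0 : ℝ) ≤ ε * n := by positivity
        linarith
      · have hp : (1 : ℝ) ≤ f n := by exact_mod_cast h.pos n (by omega) (by omega)
        have h3 : (n : ℝ) ≤ 2 * x + 2 := by exact_mod_cast h2
        have hx0 : (0 : ℝ) ≤ 2 * x + 2 := by positivity
        calc (n : ℝ) ≤ 2 * x + 2 := h3
          _ = (2 * x + 2) * 1 := by ring
          _ ≤ (2 * x + 2) * (f n : ℝ) := by gcongr
  | succ j ih =>
    intro n hn hny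
    have hp1 : 1 ≤ 2 ^ j := Nat.one_le_two_pow
    have hn2 : 2 * (2 ^ j * (x + 2)) ≤ n + 1 := by
      calc 2 * (2 ^ j * (x + 2)) = 2 ^ (j + 1) * (x + 2) := by ring
        _ ≤ n + 1 := hn
    have hn3 : x + 2 ≤ 2 ^ j * (x + 2) := by nlinarith
    obtain ⟨a, b, h1, h4, h6, h5, h7, h8, h9, h10⟩ := key n (by omega) hny
    have i1 := ih a (by omega) (by omega)
    have i2 := ih b (by omega) (by omega)
    rw [h1]
    push_cast
    have hpow : 0 ≤ (1 + 2 * ε) ^ j := pow_nonneg (by linarith) _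
    calc (1 + 2 * ε) ^ (j + 1) * (n : ℝ) = (1 + 2 * ε) ^ j * ((1 + 2 * ε) * n) := by ring
      _ ≤ (1 + 2 * ε) ^ j * (a + b) := by gcongr
      _ ≤ (2 * x + 2) * ((f a : ℝ) + f b) := by linarith

/-- As long as Hofstadter's recursion survives, `f(n)/n ≤ 1/2 + ε` somewhere in each window
`(x, K x]`, and `f(n)/n ≥ 1/2 - ε` somewhere in each window `(x, x^K]`. -/
theorem result : ∀ ε : ℝ, 0 < ε → ∃ K : ℕ, ∀ (N : ℕ) (f : ℕ → ℕ), DefinedUpTo N f →
    ∀ x : ℕ, K ≤ x →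
      (K * x < N → ∃ n : ℕ, x < n ∧ n ≤ K * x ∧ (f n : ℝ) ≤ (1 / 2 + ε) * n) ∧
      (x ^ K ≤ N → ∃ n : ℕ, x < n ∧ n ≤ x ^ K ∧ (1 / 2 - ε) * n ≤ (f n : ℝ)) := by
  intro ε₀ hε₀
  set ε := min ε₀ (1 / 4) with hεdef
  have hε : 0 < ε := lt_min hε₀ (by norm_num)
  have hε2 : ε < 1 / 2 := lt_of_le_of_lt (min_le_right _ _) (by norm_num)
  have hεle : ε ≤ ε₀ := min_le_left _ _
  obtain ⟨J, hJ⟩ := exists_pow_lt_of_lt_one (show (0 : ℝ) < 1 / 2 by norm_num)
    (show 1 - ε < 1 by linarith)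
  obtain ⟨M, hM⟩ := pow_unbounded_of_one_lt (2 : ℝ) (show 1 < 1 + 2 * ε by linarith)
  obtain ⟨K₁, hK₁⟩ := exists_nat_gt (2 / ε ^ J)
  obtain ⟨K₂, hK₂⟩ := exists_nat_gt (3 / ε)
  refine ⟨K₁ + K₂ + 2 * M + 4, fun N f hf x hx => ⟨?_, ?_⟩⟩
  · intro hN
    by_contra hcon
    push Not at hcon
    set K := K₁ + K₂ + 2 * M + 4 with hK
    have hx1 : (3 : ℝ) / ε ≤ x := by
      have : (K₂ : ℝ) ≤ x := by exact_mod_cast (by omega : K₂ ≤ x)
      linarith
    have hxpos : (0 : ℝ) < x := by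
      have : (0 : ℝ) < 3 / ε := by positivity
      linarith
    have hbig : ∀ n, x < n → n ≤ K * x → (1 / 2 + ε) * (n : ℝ) < f n := by
      intro n h1 h2
      have h3 := hcon n h1 h2
      have h4 : (0 : ℝ) ≤ n := Nat.cast_nonneg _
      nlinarith
    have hxx : x < K * x := by
      have : 0 < x := by exact_mod_cast hxpos
      nlinarith
    have h5 := upper hf hε hε2 hN hx1 hbig J (K * x) (by
      have h6 : (K₁ : ℝ) ≤ K := by exact_mod_cast (by omega : K₁ ≤ K)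
      push_cast
      calc 2 * (x : ℝ) / ε ^ J = (2 / ε ^ J) * x := by ring
        _ < K * x := by
          apply mul_lt_mul_of_pos_right _ hxpos
          linarith) le_rfl
    have h7 := hbig (K * x) hxx le_rfl
    have h8 : (0 : ℝ) < ((K * x : ℕ) : ℝ) := by
      have : 0 < K * x := by omega
      exact_mod_cast this
    have h9 : (1 - ε) ^ (J + 1) ≤ 1 / 2 := by
      rw [pow_succ]
      have : 0 ≤ (1 - ε) ^ J := pow_nonneg (by linarith) _
      nlinarith
    have h10 : (1 - ε) ^ (J + 1) * ((K * x : ℕ) : ℝ) ≤ 1 / 2 * ((K * x : ℕ) : ℝ) :=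
      mul_le_mul_of_nonneg_right h9 h8.le
    nlinarith
  · intro hN
    by_contra hcon
    push Not at hcon
    set K := K₁ + K₂ + 2 * M + 4 with hK
    have hx4 : 4 ≤ x := by omega
    have hsmall : ∀ n, x < n → n ≤ x ^ K → (f n : ℝ) < (1 / 2 - ε) * (n : ℝ) := by
      intro n h1 h2
      have h3 := hcon n h1 h2
      have h4 : (0 : ℝ) ≤ n := Nat.cast_nonneg _
      nlinarith
    set L := Nat.clog 2 (x + 1) with hL
    have hL1 : x + 1 ≤ 2 ^ L := Nat.le_pow_clog (by norm_num) _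
    have hL2 : 2 ^ L < 2 * (x + 1) := by
      have hL0 : L ≠ 0 := by
        intro h
        rw [h] at hL1
        omega
      obtain ⟨l, hl⟩ := Nat.exists_eq_succ_of_ne_zero hL0
      have : 2 ^ l < x + 1 := Nat.pow_lt_of_lt_clog (by rw [← hL, hl]; exact Nat.lt_succ_self l)
      rw [hl, pow_succ]
      omega
    have hxsq : 2 * (x + 1) ≤ x ^ 2 := by nlinarith
    have hxsq2 : x + 2 ≤ x ^ 2 := by nlinarith
    have hpow : 2 ^ (L * M) * (x + 2) ≤ x ^ K := by
      calc 2 ^ (L * M) * (x + 2) = (2 ^ L) ^ M * (x + 2) := by rw [pow_mul]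
        _ ≤ (x ^ 2) ^ M * x ^ 2 := Nat.mul_le_mul (Nat.pow_le_pow_left (by omega) _) hxsq2
        _ = x ^ (2 * M + 2) := by rw [← pow_mul, ← pow_add]
        _ ≤ x ^ K := Nat.pow_le_pow_right (by omega) (by omega)
    have h5 := lower hf hε (by omega) hN hsmall (L * M) (x ^ K) (by omega) le_rfl
    have hxx : x < x ^ K := by
      calc x = x ^ 1 := (pow_one x).symm
        _ < x ^ K := Nat.pow_lt_pow_right (by omega) (by omega)
    have h6 := hsmall (x ^ K) hxx le_rfl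
    have h7 : (x : ℝ) + 1 ≤ (1 + 2 * ε) ^ (L * M) := by
      calc (x : ℝ) + 1 ≤ (2 : ℝ) ^ L := by exact_mod_cast hL1
        _ ≤ ((1 + 2 * ε) ^ M) ^ L := pow_le_pow_left₀ (by norm_num) hM.le _
        _ = (1 + 2 * ε) ^ (L * M) := by rw [← pow_mul, mul_comm M L]
    have h8 : (0 : ℝ) < ((x ^ K : ℕ) : ℝ) := by
      have : 0 < x ^ K := by positivity
      exact_mod_cast this
    have h9 : ((x : ℝ) + 1) * ((x ^ K : ℕ) : ℝ) ≤ (2 * x + 2) * (f (x ^ K) : ℝ) :=
      le_trans (mul_le_mul_of_nonneg_right h7 h8.le) h5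
    have h10 : (0 : ℝ) < (x : ℝ) + 1 := by positivity
    have h11 : ((x : ℝ) + 1) * ((x ^ K : ℕ) : ℝ) ≤ ((x : ℝ) + 1) * (2 * (f (x ^ K) : ℝ)) := by
      linarith
    have h12 := le_of_mul_le_mul_left h11 h10
    nlinarith

end Pool.Agent.Results.MP_1ea5af_nt.HalfBounds
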