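import Pool.Agent.Lib.HQ.Fin

/-!
# Survival of Hofstadter's recursion is undecidable

`Pool.Agent.Lib.HQ.WellDefined l`: the recursion `f n = f (n - f (n - 1)) + f (n - f (n - 2))`
with the initial values `l` is well-defined for every `n` (see `Pool.Agent.Lib.HQ.Stmt`).

Let `U` be any computable sequence of positive integers and let `K` and `N` be any natural
numbers. Replace the values of `U` after the first `k` by finitely many other values `t`. The set
of the pairs `(k, t)` with `k ≥ K`, with `t` of length at most `k / N` and with each new value at
most its own index, for which Hofstadter's recursion, started with `U 0, ..., U (k - 1)` followed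
by `t`, breaks down is complete for recursively enumerable sets, and the set of those pairs for
which it does not break down is not recursively enumerable.

Proof. From the end of the initial values on the values come in blocks of 20. Each block holds
pointers which read one letter of a queue (at half speed), look up a table stored in the initial
values and write a new letter. The queue system simulates every Turing machine; a special letter
makes the recursion break down.
-/

set_option autoImplicit false

namespace Pool.Agent.Results.MP_1ea5af_nt.Undecidable

open Pool.Agent.Lib.HQ

theorem result (U : ℕ → ℕ) (hU : Computable U) (hpos : ∀ n, 1 ≤ U n) (K N : ℕ) :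
    REPred (fun x : ℕ × List ℕ => Near K N x ∧ ¬ WellDefined (pre U x.1 ++ x.2)) ∧
    (∀ p : ℕ → Prop, REPred p → ∃ e : ℕ → ℕ × List ℕ, Computable e ∧
      ∀ n, Near K N (e n) ∧ (p n ↔ ¬ WellDefined (pre U (e n).1 ++ (e n).2))) ∧
    ¬ REPred (fun x : ℕ × List ℕ => Near K N x ∧ WellDefined (pre U x.1 ++ x.2)) :=
  hofstadter_complete U hU hpos K N

end Pool.Agent.Results.MP_1ea5af_nt.Undecidable
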